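import Pool.Agent.R892.JP.Phase
set_option autoImplicit false

/-!
# Several rules and start vertices at once
-/

namespace Pool.Agent.TH70.AR.JP

open Finset

variable {n : ℕ}

/-- Run the rules one after the other, `N - 1` steps each, with jumps to the start vertices. -/
def dove {J : ℕ} (N : ℕ) (R : Fin (J + 1) → Past n → Fin n) (y : Fin (J + 1) → (Fin n → Bool)) :
    Alg n := fun p =>
  if (p.length - 1) % N + 1 = N then Sum.inr (y (Fin.ofNat (J + 1) ((p.length - 1) / N + 1)))
  else Sum.inl (R (Fin.ofNat (J + 1) ((p.length - 1) / N)) (p.take ((p.length - 1) % N + 1)))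

lemma dove_ok {J : ℕ} {N : ℕ} {R : Fin (J + 1) → Past n → Fin n} (hR : ∀ j, Valid (R j))
    (y : Fin (J + 1) → (Fin n → Bool)) : Ok (dove N R y) := by
  intro x c S l i hS h
  unfold dove at h
  split_ifs at h with h1
  · rw [Sum.inl.injEq] at h
    rw [← h, List.take_succ_cons]
    exact hR _ x c S _ hS

variable {J N : ℕ} {R : Fin (J + 1) → Past n → Fin n} {y : Fin (J + 1) → (Fin n → Bool)}
  {f : (Fin n → Bool) → ℕ}

lemma act_dove (hN : 0 < N) (j s : ℕ) (hs : s < N) :
    act (dove N R y) f (y 0) (j * N + s) =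
      if s + 1 = N then Sum.inr (y (Fin.ofNat (J + 1) (j + 1)))
      else Sum.inl (R (Fin.ofNat (J + 1) j)
        (view f (pos (dove N R y) f (y 0) (j * N + s)) ::
          (past (dove N R y) f (y 0) (j * N + s)).take s)) := by
  have h1 : (j * N + s) / N = j := by
    rw [mul_comm, Nat.mul_add_div hN, Nat.div_eq_of_lt hs, add_zero]
  have h2 : (j * N + s) % N = s := by
    rw [mul_comm, Nat.mul_add_mod, Nat.mod_eq_of_lt hs]
  unfold act
  rw [dove]
  simp only [List.length_cons, past_length, Nat.add_sub_cancel, h1, h2, List.take_succ_cons]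

lemma pos_dove (hN : 0 < N) (j s : ℕ) (hj : j ≤ J) (hs : s < N) :
    pos (dove N R y) f (y 0) (j * N + s) = (run (R (Fin.ofNat (J + 1) j)) f s
      (y (Fin.ofNat (J + 1) j)) []).1 ∧
    (past (dove N R y) f (y 0) (j * N + s)).take s = (run (R (Fin.ofNat (J + 1) j)) f s
      (y (Fin.ofNat (J + 1) j)) []).2 := by
  induction s with
  | zero =>
    refine ⟨?_, by simp [run]⟩
    cases j with
    | zero =>
      rw [zero_mul]
      rfl
    | succ j =>
      have h1 : (j + 1) * N + 0 = (j * N + (N - 1)) + 1 := by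
        rw [add_mul, one_mul]
        omega
      rw [h1, pos_succ, act_dove hN j (N - 1) (by omega), if_pos (by omega)]
      rfl
  | succ s ih =>
    obtain ⟨h1, h2⟩ := ih (by omega)
    have h3 : j * N + (s + 1) = (j * N + s) + 1 := by omega
    rw [h3, pos_succ, past_succ, act_dove hN j s (by omega), if_neg (by omega), run_succ,
      List.take_succ_cons, h1, h2]
    exact ⟨rfl, rfl⟩

lemma jumps_dove (hN : 0 < N) (j s : ℕ) (hs : s < N) :
    jumps (dove N R y) f (y 0) (j * N + s) ≤ j := by
  have h1 : ((range (j * N + s)).filter fun t => (act (dove N R y) f (y 0) t).isRight = true) ⊆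
      (range j).image fun i => i * N + (N - 1) := by
    intro t ht
    rw [mem_filter, mem_range] at ht
    obtain ⟨h1, h2⟩ := ht
    have h3 : t = t / N * N + t % N := by rw [Nat.div_add_mod']
    rw [h3, act_dove hN _ _ (Nat.mod_lt _ hN)] at h2
    split_ifs at h2 with h4
    · rw [mem_image]
      refine ⟨t / N, ?_, by omega⟩
      rw [mem_range]
      by_contra h5
      push Not at h5
      have h6 : j * N ≤ t / N * N := Nat.mul_le_mul_right _ h5
      omega
    · simp at h2
  unfold jumps
  exact (card_le_card h1).trans (card_image_le.trans_eq (card_range j))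

/-- **Several rules and start vertices.** -/
theorem portfolio {k J : ℕ} (hn : 2 * (k * (k + 1) * (3 * k + 28)) + 3 * (k + 6) * (J + 1) ≤ n)
    (R : Fin (J + 1) → Past n → Fin n) (hR : ∀ j, Valid (R j))
    (y : Fin (J + 1) → (Fin n → Bool)) :
    ∃ f : (Fin n → Bool) → ℕ, Function.Injective f ∧ AOF f ∧ ∀ j : Fin (J + 1),
      ∃ (L : ℕ) (w : ℕ → (Fin n → Bool)), w 0 = y j ∧
        (∀ t < L, (improving f (w t)).Nonempty ∧ w (t + 1) = flip (w t) (R j (seen f w t))) ∧
        improving f (w L) = ∅ ∧ 2 ^ k ≤ L := by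
  classical
  have hN : 0 < 2 ^ k := by positivity
  obtain ⟨f, hinj, hA, hG⟩ := adversary hn (dove_ok (N := 2 ^ k) hR y) (y 0)
  refine ⟨f, hinj, hA, fun j => ?_⟩
  set w : ℕ → (Fin n → Bool) := fun t => (run (R j) f t (y j) []).1 with hw
  have hseen : ∀ t, seen f w t = view f (w t) :: (run (R j) f t (y j) []).2 := by
    intro t
    induction t with
    | zero => rfl
    | succ t ih => rw [seen, ih, run_succ]
  have hstep : ∀ t, w (t + 1) = flip (w t) (R j (seen f w t)) := by
    intro t
    rw [hseen]
    simp only [hw, run_succ]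
  have hup : ∀ t, (improving f (w t)).Nonempty → f (w t) < f (w (t + 1)) := by
    intro t ht
    have h1 := hR j (w t) (f (w t)) (improving f (w t)) (run (R j) f t (y j) []).2 ht
    rw [hstep, hseen]
    change R j (view f (w t) :: (run (R j) f t (y j) []).2) ∈ _ at h1
    rw [improving, mem_filter] at h1
    exact h1.2
  have hend : ∃ t, improving f (w t) = ∅ := by
    by_contra hne
    push Not at hne
    have h1 : StrictMono fun t => f (w t) := strictMono_nat_of_lt_succ fun t => hup t (hne t)
    have h2 := h1.injective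
    have h3 : Function.Injective w := fun s t h => h2 (by simp only [h])
    exact not_injective_infinite_finite w h3
  refine ⟨Nat.find hend, w, rfl, fun t ht => ⟨?_, hstep t⟩, Nat.find_spec hend, ?_⟩
  · exact nonempty_iff_ne_empty.2 (Nat.find_min hend ht)
  · by_contra hlt
    push Not at hlt
    have hjJ : j.val ≤ J := by omega
    have hj : Fin.ofNat (J + 1) j.val = j := by
      apply Fin.ext
      simp
    obtain ⟨h1, -⟩ := pos_dove (R := R) (y := y) (f := f) hN j.val (Nat.find hend) hjJ hlt
    rw [hj] at h1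
    have h2 := hG (j.val * 2 ^ k + Nat.find hend) (by rw [h1]; exact Nat.find_spec hend)
      ((jumps_dove hN _ _ hlt).trans hjJ)
    obtain ⟨s, -, h3⟩ := h2
    -- among `2 ^ k` consecutive moves there is a jump
    have h4 : s ≤ s / 2 ^ k * 2 ^ k + (2 ^ k - 1) := by
      have := Nat.div_add_mod' s (2 ^ k)
      have h5 := Nat.mod_lt s hN
      omega
    have h5 : s / 2 ^ k * 2 ^ k ≤ s := Nat.div_mul_le_self _ _
    have h6 := h3 (s / 2 ^ k * 2 ^ k + (2 ^ k - 1)) h4 (by omega)
    rw [act_dove hN _ _ (by omega), if_pos (by omega)] at h6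
    simp at h6

end Pool.Agent.TH70.AR.JP
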