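import Pool.Agent.TH70.AR.Run
set_option autoImplicit false

/-!
# Searching the cube with steps and jumps
-/

namespace Pool.Agent.TH70.AR.JP

open Finset

variable {n : ℕ}

/-- A search algorithm: from all that has been seen (the current vertex first) it computes a
direction for the next step or a vertex to which it jumps. -/
abbrev Alg (n : ℕ) := Past n → Fin n ⊕ (Fin n → Bool)

/-- the steps of the algorithm go along improving edges -/
def Ok (A : Alg n) : Prop :=
  ∀ (x : Fin n → Bool) (c : ℕ) (S : Finset (Fin n)) (l : Past n) (i : Fin n), S.Nonempty →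
    A ((x, c, S) :: l) = Sum.inl i → i ∈ S

/-- the next vertex -/
def next (x : Fin n → Bool) : Fin n ⊕ (Fin n → Bool) → (Fin n → Bool)
  | Sum.inl i => flip x i
  | Sum.inr y => y

/-- position and past at time `t` -/
def traj (A : Alg n) (f : (Fin n → Bool) → ℕ) (x₀ : Fin n → Bool) : ℕ → (Fin n → Bool) × Past n
  | 0 => (x₀, [])
  | t + 1 => (next (traj A f x₀ t).1 (A (view f (traj A f x₀ t).1 :: (traj A f x₀ t).2)),
      view f (traj A f x₀ t).1 :: (traj A f x₀ t).2)

/-- the position at time `t` -/
def pos (A : Alg n) (f : (Fin n → Bool) → ℕ) (x₀ : Fin n → Bool) (t : ℕ) : Fin n → Bool :=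
  (traj A f x₀ t).1

/-- what was seen before time `t` -/
def past (A : Alg n) (f : (Fin n → Bool) → ℕ) (x₀ : Fin n → Bool) (t : ℕ) : Past n :=
  (traj A f x₀ t).2

/-- the move made at time `t` -/
def act (A : Alg n) (f : (Fin n → Bool) → ℕ) (x₀ : Fin n → Bool) (t : ℕ) :
    Fin n ⊕ (Fin n → Bool) :=
  A (view f (pos A f x₀ t) :: past A f x₀ t)

variable {A : Alg n} {f g : (Fin n → Bool) → ℕ} {x₀ : Fin n → Bool}

lemma pos_succ (t : ℕ) : pos A f x₀ (t + 1) = next (pos A f x₀ t) (act A f x₀ t) := rfl

lemma past_succ (t : ℕ) : past A f x₀ (t + 1) = view f (pos A f x₀ t) :: past A f x₀ t := rfl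

lemma past_length (t : ℕ) : (past A f x₀ t).length = t := by
  induction t with
  | zero => rfl
  | succ t ih => rw [past_succ, List.length_cons, ih]

lemma seen_eq (t : ℕ) : seen f (pos A f x₀) t = view f (pos A f x₀ t) :: past A f x₀ t := by
  induction t with
  | zero => rfl
  | succ t ih => rw [seen, ih, past_succ]

/-- the number of jumps before time `T` -/
def jumps (A : Alg n) (f : (Fin n → Bool) → ℕ) (x₀ : Fin n → Bool) (T : ℕ) : ℕ :=
  ((range T).filter fun t => (act A f x₀ t).isRight = true).card

lemma jumps_mono {s t : ℕ} (h : s ≤ t) : jumps A f x₀ s ≤ jumps A f x₀ t := by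
  apply card_le_card
  exact filter_subset_filter _ (range_subset_range.2 h)

lemma jumps_lt {s t u : ℕ} (h : s ≤ t) (hu : t < u) (ht : (act A f x₀ t).isRight = true) :
    jumps A f x₀ s + 1 ≤ jumps A f x₀ u := by
  unfold jumps
  have h1 : insert t ((range s).filter fun t => (act A f x₀ t).isRight = true) ⊆
      (range u).filter fun t => (act A f x₀ t).isRight = true := by
    intro r hr
    rw [mem_insert] at hr
    rcases hr with rfl | hr
    · exact mem_filter.2 ⟨mem_range.2 hu, ht⟩
    · rw [mem_filter, mem_range] at hr ⊢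
      exact ⟨by omega, hr.2⟩
  have h2 := card_le_card h1
  rwa [card_insert_of_notMem (by simp; intro h; omega)] at h2

/-! ### Replacing the function on a hypersink -/

lemma view_stack {Z : Finset (Fin n)} {z u : Fin n → Bool} (hyp : Hyp f Z z) (hu : ¬ On Z z u) :
    view (stack (On Z z) g f) u = view f u := by
  have h1 : stack (On Z z) g f u = f u := stack_neg hu
  have h2 : improving (stack (On Z z) g f) u = improving f u := by
    ext i
    simp only [improving, mem_filter, mem_univ, true_and]
    by_cases h : On Z z (flip u i)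
    · refine iff_of_true (stack_lt hu h) ?_
      have hiZ : i ∈ Z := by
        by_contra h'
        exact hu (by simpa [flip_flip] using h.flip h')
      have := hyp _ h i hiZ
      rwa [flip_flip] at this
    · exact stack_lt_neg hu h
  rw [view, view, h1, h2]

lemma traj_stack {Z : Finset (Fin n)} {z : Fin n → Bool} (hyp : Hyp f Z z) {T : ℕ}
    (hT : ∀ s < T, ¬ On Z z (pos A f x₀ s)) :
    traj A (stack (On Z z) g f) x₀ T = traj A f x₀ T := by
  induction T with
  | zero => rfl
  | succ T ih =>
    have h1 := ih fun s hs => hT s (by omega)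
    have h2 : view (stack (On Z z) g f) (traj A f x₀ T).1 = view f (traj A f x₀ T).1 :=
      view_stack hyp (hT T (by omega))
    rw [traj, h1, h2, traj]

lemma act_stack {Z : Finset (Fin n)} {z : Fin n → Bool} (hyp : Hyp f Z z) {T : ℕ}
    (hT : ∀ s ≤ T, ¬ On Z z (pos A f x₀ s)) :
    act A (stack (On Z z) g f) x₀ T = act A f x₀ T := by
  have h2 : view (stack (On Z z) g f) (traj A f x₀ T).1 = view f (traj A f x₀ T).1 :=
    view_stack hyp (hT T le_rfl)
  unfold act pos past
  rw [traj_stack hyp fun s hs => hT s hs.le, h2]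

lemma jumps_stack {Z : Finset (Fin n)} {z : Fin n → Bool} (hyp : Hyp f Z z) {T : ℕ}
    (hT : ∀ s < T, ¬ On Z z (pos A f x₀ s)) :
    jumps A (stack (On Z z) g f) x₀ T = jumps A f x₀ T := by
  unfold jumps
  congr 1
  apply filter_congr
  intro t ht
  rw [mem_range] at ht
  rw [act_stack hyp fun s hs => hT s (by omega)]

/-- outside of a hypersink there are improving directions -/
lemma improving_ne {Z : Finset (Fin n)} {z u : Fin n → Bool} (hf : AOF f) (hyp : Hyp f Z z)
    (hu : ¬ On Z z u) : improving f u ≠ ∅ := by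
  classical
  intro h
  obtain ⟨m, ⟨hm1, hm2⟩, -⟩ := hf (univ \ Z) z
  have hmZ : On Z z m := fun i hi => hm1 i (by simp [hi])
  obtain ⟨m', -, hm'⟩ := hf univ u
  have e1 : m = m' := by
    apply hm'
    refine ⟨fun i hi => absurd (mem_univ i) hi, fun i _ => ?_⟩
    by_cases hiZ : i ∈ Z
    · exact hyp m hmZ i hiZ
    · exact hm2 i (by simp [hiZ])
  have e2 : u = m' := by
    apply hm'
    refine ⟨fun i _ => rfl, fun i _ => ?_⟩
    have h1 : i ∉ improving f u := by rw [h]; simp
    rw [improving, mem_filter] at h1
    exact lt_of_le_of_ne (by by_contra h2; exact h1 ⟨mem_univ i, by omega⟩) (hf.ne u i)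
  exact hu (e2.trans e1.symm ▸ hmZ)

/-- a function with the same orientation -/
lemma aof_congr {f g : (Fin n → Bool) → ℕ} (hf : AOF f)
    (h : ∀ x i, g x < g (flip x i) ↔ f x < f (flip x i)) : AOF g := by
  have h1 : ∀ y i, g (flip y i) < g y ↔ f (flip y i) < f y := by
    intro y i
    have := h (flip y i) i
    rwa [flip_flip] at this
  intro F x
  obtain ⟨y, ⟨hy1, hy2⟩, hy3⟩ := hf F x
  exact ⟨y, ⟨hy1, fun i hi => (h1 y i).2 (hy2 i hi)⟩,
    fun z hz => hy3 z ⟨hz.1, fun i hi => (h1 z i).1 (hz.2 i hi)⟩⟩

lemma hyp_congr {f g : (Fin n → Bool) → ℕ} {Z : Finset (Fin n)} {z : Fin n → Bool}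
    (hf : Hyp f Z z) (h : ∀ x i, g x < g (flip x i) ↔ f x < f (flip x i)) : Hyp g Z z := by
  intro u hu i hi
  have := h (flip u i) i
  rw [flip_flip] at this
  exact this.2 (hf u hu i hi)

lemma stack_inj {P : (Fin n → Bool) → Prop} [DecidablePred P] (hf : Function.Injective f)
    (hg : Function.Injective g) : Function.Injective (stack P g f) := by
  intro u v h
  by_cases hu : P u <;> by_cases hv : P v
  · rw [stack_pos hu, stack_pos hv] at h
    exact hg (by omega)
  · exact absurd h (stack_lt hv hu).ne'
  · exact absurd h (stack_lt hu hv).ne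
  · rw [stack_neg hu, stack_neg hv] at h
    exact hf h

/-! ### Wiping records when the position does not matter -/

/-- The records `L` are wiped by freezing few coordinates at suitable values. -/
lemma wipe_free {K : ℕ} (t : ℕ) :
    ∀ (Y : Finset (Fin n)) (L : List (Rec n)), (∀ r ∈ L, (Y \ r.W).card ≤ K) →
      L.length * 3 ^ t < 4 ^ t → 2 * K + t ≤ Y.card →
      ∃ (X : Finset (Fin n)) (b : Fin n → Bool), X ⊆ Y ∧ X.card ≤ t ∧ ∀ r ∈ L, Wipes X b r := by
  classical
  induction t with
  | zero =>
    intro Y L _ hc _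
    have hL0 : L = [] := by
      rw [← List.length_eq_zero_iff]
      simpa using hc
    subst hL0
    exact ⟨∅, fun _ => false, by simp, by simp, by simp⟩
  | succ t ih =>
    intro Y L hL hc hY
    by_cases hL0 : L = []
    · subst hL0
      exact ⟨∅, fun _ => false, by simp, by simp, by simp⟩
    have hL1 : 0 < L.length := List.length_pos_of_ne_nil hL0
    -- a direction which is useful for at least half of the records
    have hx : ∃ x ∈ Y, 2 * L.countP (fun r => decide (x ∉ r.W)) ≤ L.length := by
      by_contra h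
      push Not at h
      have h1 : ∑ x ∈ Y, L.length < ∑ x ∈ Y, 2 * L.countP (fun r => decide (x ∉ r.W)) := by
        apply sum_lt_sum_of_nonempty
        · rw [← card_pos]; omega
        · exact h
      rw [← mul_sum, sum_count, sum_const, smul_eq_mul] at h1
      have h2 : (L.map fun r => (Y \ r.W).card).sum ≤ L.length * K := by
        have := List.sum_le_card_nsmul (L.map fun r => (Y \ r.W).card) K (by
          intro x hx
          rw [List.mem_map] at hx
          obtain ⟨r, hr, rfl⟩ := hx
          exact hL r hr)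
        simpa using this
      have h3 : 2 * K * L.length ≤ Y.card * L.length := Nat.mul_le_mul_right _ (by omega)
      nlinarith
    obtain ⟨x, hxY, hx⟩ := hx
    -- a value for which a quarter of the records is wiped
    have hv : ∃ v : Bool, L.length ≤ 4 * (L.filter fun r => decide (x ∈ r.W ∧ v ≠ r.w x)).length := by
      have h1 := count_three L (fun _ => false) x
      rw [flip_self] at h1
      have h0 : (!false) = true := rfl
      rw [h0] at h1
      by_cases h2 : (L.filter fun r : Rec n => decide (x ∈ r.W ∧ true ≠ r.w x)).length ≤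
        (L.filter fun r : Rec n => decide (x ∈ r.W ∧ false ≠ r.w x)).length
      · exact ⟨false, by omega⟩
      · exact ⟨true, by omega⟩
    obtain ⟨v, hv⟩ := hv
    have hcard : (Y.erase x).card + 1 = Y.card := card_erase_add_one hxY
    obtain ⟨X, b, h1, h2, h3⟩ := ih (Y.erase x) (L.filter fun r => !decide (x ∈ r.W ∧ v ≠ r.w x))
      (fun r hr => (card_le_card (sdiff_subset_sdiff (erase_subset _ _) (Subset.refl _))).trans
        (hL r (List.mem_of_mem_filter hr)))
      (by
        have h4 := filter_card L (fun r => decide (x ∈ r.W ∧ v ≠ r.w x)) hv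
        have h5 : 4 * (L.filter fun r => !decide (x ∈ r.W ∧ v ≠ r.w x)).length ≤ 3 * L.length := by
          omega
        have h6 : 4 * ((L.filter fun r => !decide (x ∈ r.W ∧ v ≠ r.w x)).length * 3 ^ t)
            < 4 * 4 ^ t := by
          calc 4 * ((L.filter fun r => !decide (x ∈ r.W ∧ v ≠ r.w x)).length * 3 ^ t)
              = (4 * (L.filter fun r => !decide (x ∈ r.W ∧ v ≠ r.w x)).length) * 3 ^ t := by ring
            _ ≤ (3 * L.length) * 3 ^ t := Nat.mul_le_mul_right _ h5
            _ = L.length * 3 ^ (t + 1) := by ring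
            _ < 4 ^ (t + 1) := hc
            _ = 4 * 4 ^ t := by ring
        exact lt_of_mul_lt_mul_left h6 (Nat.zero_le _))
      (by omega)
    have hxX : x ∉ X := fun h => (mem_erase.1 (h1 h)).1 rfl
    refine ⟨insert x X, Function.update b x v,
      insert_subset hxY (h1.trans (erase_subset _ _)), ?_, ?_⟩
    · rw [card_insert_of_notMem hxX]
      omega
    · intro r hr
      by_cases hr' : x ∈ r.W ∧ v ≠ r.w x
      · exact ⟨x, mem_insert_self _ _, hr'.1, by rw [Function.update_self]; exact hr'.2⟩
      · obtain ⟨y, hy1, hy2, hy3⟩ := h3 r (List.mem_filter.2 ⟨hr, by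
          simp only [Bool.not_eq_true', decide_eq_false_iff_not]; exact hr'⟩)
        refine ⟨y, mem_insert_of_mem hy1, hy2, ?_⟩
        rw [Function.update_of_ne (by rintro rfl; exact hxX hy1)]
        exact hy3

end Pool.Agent.TH70.AR.JP
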