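import Pool.Agent.R892.JP.Jump
set_option autoImplicit false

/-!
# The adversary against steps and few jumps
-/

namespace Pool.Agent.TH70.AR.JP

open Finset

variable {n : ℕ} {A : Alg n} {x₀ : Fin n → Bool}

open Classical in
/-- the rule which makes the steps of the algorithm, and some improving step where it would jump -/
noncomputable def dir (d : Fin n) (A : Alg n) (p : Past n) : Fin n :=
  match A p with
  | Sum.inl i => i
  | Sum.inr _ =>
    match p with
    | [] => d
    | (_, _, S) :: _ => if h : S.Nonempty then h.choose else d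

lemma dir_valid (d : Fin n) (hA : Ok A) : Valid (dir d A) := by
  intro x c S l hS
  unfold dir
  cases h : A ((x, c, S) :: l) with
  | inl i => exact hA x c S l i hS h
  | inr y =>
    show (if h : S.Nonempty then h.choose else d) ∈ S
    rw [dif_pos hS]
    exact hS.choose_spec

lemma dir_eq (d : Fin n) {p : Past n} {i : Fin n} (h : A p = Sum.inl i) : dir d A p = i := by
  unfold dir
  rw [h]

/-- as long as there are no jumps the algorithm follows the rule -/
lemma traj_run (d : Fin n) {f : (Fin n → Bool) → ℕ} {τ : ℕ} (t : ℕ)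
    (h : ∀ s < t, (act A f x₀ (τ + s)).isRight = false) :
    traj A f x₀ (τ + t) = run (dir d A) f t (pos A f x₀ τ) (past A f x₀ τ) := by
  induction t with
  | zero => rfl
  | succ t ih =>
    have h1 := ih fun s hs => h s (by omega)
    have h2 := h t (by omega)
    rw [run_succ, ← h1, ← add_assoc, traj]
    have h3 : act A f x₀ (τ + t) =
        A (view f (traj A f x₀ (τ + t)).1 :: (traj A f x₀ (τ + t)).2) := rfl
    rw [h3] at h2
    cases h4 : A (view f (traj A f x₀ (τ + t)).1 :: (traj A f x₀ (τ + t)).2) with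
    | inr y => rw [h4] at h2; simp at h2
    | inl i => rw [dir_eq d h4]; rfl

/-- the visited vertices increase -/
lemma walk_inc {B : Past n → Fin n} {c : ℕ → ℕ} (hB : Valid B) {Y : Finset (Fin n)}
    {f : (Fin n → Bool) → ℕ} {b : Fin n → Bool} :
    ∀ (q : List (Rec n)) (h : Past n) (a : Fin n → Bool), Walk B c h a q b →
      (∀ r ∈ q, r.S ⊆ Y) → (∀ r ∈ q, ∀ i ∈ Y, (f r.w < f (flip r.w i) ↔ i ∈ r.S)) →
      ∀ (t : ℕ) (ht : t + 1 < q.length), f (q[t]).w < f (q[t + 1]).w := by
  intro q
  induction q with
  | nil => intro h a _ _ _ t ht; simp at ht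
  | cons r q ih =>
    intro h a hq hY hS t ht
    simp only [Walk] at hq
    obtain ⟨h1, h2, h3⟩ := hq
    cases t with
    | zero =>
      cases q with
      | nil => simp at ht
      | cons s q =>
        simp only [Walk] at h3
        simp only [List.getElem_cons_zero, List.getElem_cons_succ]
        rw [h3.1, ← h1]
        have h4 := hB a (c h.length) r.S h h2
        rw [← h1] at h4
        exact (hS r List.mem_cons_self _ (hY r List.mem_cons_self h4)).2 h4
    | succ t =>
      simp only [List.getElem_cons_succ]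
      exact ih _ _ h3 (fun r hr => hY r (List.mem_cons_of_mem _ hr))
        (fun r hr => hS r (List.mem_cons_of_mem _ hr)) t (by simpa using ht)

/-- The state of the adversary: the function `f` is final outside of the hypersink `z` on `Z`, and the
algorithm has made at least `i` jumps when it enters the hypersink. -/
structure St (A : Alg n) (x₀ : Fin n → Bool) (m i : ℕ) (f : (Fin n → Bool) → ℕ)
    (Z : Finset (Fin n)) (z : Fin n → Bool) : Prop where
  inj : Function.Injective f
  aof : AOF f
  hyp : Hyp f Z z
  card : Z.card ≤ m * i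
  enter : ∀ T, (∀ s < T, ¬ On Z z (pos A f x₀ s)) → On Z z (pos A f x₀ T) → i ≤ jumps A f x₀ T

/-- The maximum is not reached with at most `J` jumps without `N` consecutive steps. -/
def Goal (A : Alg n) (x₀ : Fin n → Bool) (J N : ℕ) (f : (Fin n → Bool) → ℕ) : Prop :=
  ∀ T, improving f (pos A f x₀ T) = ∅ → jumps A f x₀ T ≤ J →
    ∃ s, s + N ≤ T ∧ ∀ t, s ≤ t → t < s + N → (act A f x₀ t).isRight = false

/-- **One phase.** -/
lemma phase {k J i m : ℕ} (hm : m = 3 * (k + 6))
    (hn : 2 * (k * (k + 1) * (3 * k + 28)) + m * (J + 1) ≤ n) (hi : i ≤ J) (hA : Ok A)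
    {f : (Fin n → Bool) → ℕ} {Z : Finset (Fin n)} {z : Fin n → Bool} (hst : St A x₀ m i f Z z) :
    (∃ f' : (Fin n → Bool) → ℕ, Function.Injective f' ∧ AOF f' ∧ Goal A x₀ J (2 ^ k) f') ∨
    ∃ (f' : (Fin n → Bool) → ℕ) (Z' : Finset (Fin n)) (z' : Fin n → Bool),
      St A x₀ m (i + 1) f' Z' z' := by
  classical
  by_cases hent : ∃ T, On Z z (pos A f x₀ T)
  swap
  · left
    push Not at hent
    refine ⟨f, hst.inj, hst.aof, fun T hT _ => ?_⟩
    exact absurd hT (improving_ne hst.aof hst.hyp (hent T))
  set τ := Nat.find hent with hτ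
  have hτon : On Z z (pos A f x₀ τ) := Nat.find_spec hent
  have hτoff : ∀ s < τ, ¬ On Z z (pos A f x₀ s) := fun s hs => Nat.find_min hent hs
  have hn0 : 0 < n := by
    have : m * (J + 1) ≥ m := Nat.le_mul_of_pos_right _ (by omega)
    omega
  set d : Fin n := ⟨0, hn0⟩ with hd
  set Y : Finset (Fin n) := univ \ Z with hY
  have hYc : Y.card + Z.card = n := by
    rw [hY, card_sdiff_add_card_eq_card (subset_univ _), card_univ, Fintype.card_fin]
  have hZc : Z.card ≤ m * J := hst.card.trans (Nat.mul_le_mul_left _ hi)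
  have hYc' : 2 * (k * (k + 1) * (3 * k + 28)) + m ≤ Y.card := by
    have : m * (J + 1) = m * J + m := by ring
    omega
  set B : ℕ := 1 + ∑ x, f x with hB
  set c : ℕ → ℕ := fun s => (s - τ + 1) * 2 ^ n + B with hc
  obtain ⟨q, b, X, hq, hE, hS, hW, -, -, -, hlen, hlen'⟩ :=
    lv_all (c := c) (dir_valid d hA) k Y (past A f x₀ τ) (pos A f x₀ τ) (by omega)
  -- the new hypersink
  have hM : q.length * 3 ^ m < 4 ^ m := by
    have h1 : q.length < 2 ^ (k + 6) := by
      have : 0 < 2 * k ^ 2 + 21 * k + 44 := by positivity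
      have h2 : 0 < 2 ^ (k + 6) := by positivity
      omega
    have h2 : 2 ^ (k + 6) * 3 ^ m ≤ 4 ^ m := by
      rw [hm, pow_mul, pow_mul, ← mul_pow]
      exact Nat.pow_le_pow_left (by norm_num) _
    calc q.length * 3 ^ m < 2 ^ (k + 6) * 3 ^ m := Nat.mul_lt_mul_of_pos_right h1 (by positivity)
      _ ≤ 4 ^ m := h2
  obtain ⟨X', b', hX', hX'c, hX'w⟩ := wipe_free m Y q (fun r hr => (hW r hr).2) hM hYc'
  obtain ⟨g₀, hg₀, hg₀S, hg₀H⟩ := hE b' {X'} (by
    intro A hA r hr
    rw [mem_singleton] at hA
    subst hA
    exact hX'w r hr)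
  have hg₀X : Hyp g₀ X' b' := hg₀H X' (mem_singleton_self _)
  -- prescribed values
  set u : ℕ → (Fin n → Bool) := fun t => if ht : t < q.length then (q[t]).w else x₀ with hu
  have hut : ∀ (t : ℕ) (ht : t < q.length), u t = (q[t]).w := fun t ht => by simp [hu, ht]
  obtain ⟨g, hginj, hgadj, hgval⟩ := relabel hg₀ (T := q.length) u (by
    intro t ht
    rw [hut t (by omega), hut (t + 1) ht]
    exact walk_inc (dir_valid d hA) q _ _ hq hS hg₀S t ht)
  have hgA : AOF g := aof_congr hg₀ hgadj
  have hgX : Hyp g X' b' := hyp_congr hg₀X hgadj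
  set f' := stack (On Z z) g f with hf'
  have hinj' : Function.Injective f' := stack_inj hst.inj hginj
  have hA' : AOF f' := hst.aof.stackOn hgA hst.hyp
  -- the records
  have hfix := walk_fix (dir_valid d hA) hq hS
  have hon : ∀ r ∈ q, On Z z r.w := by
    intro r hr x hx
    rw [hfix.2 r hr x (by rw [hY, mem_sdiff]; exact fun h => h.2 hx)]
    exact hτon x hx
  have himp : ∀ r ∈ q, improving f' r.w = r.S := by
    intro r hr
    ext j
    rw [improving, mem_filter]
    simp only [mem_univ, true_and]
    by_cases hj : j ∈ Z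
    · have h1 : ¬ On Z z (flip r.w j) := by
        intro h
        have h2 := h j hj
        rw [flip_self, hon r hr j hj] at h2
        simp at h2
      refine iff_of_false ?_ ?_
      · have h2 : f' (flip r.w j) < f' r.w := stack_lt (g := g) (f := f) h1 (hon r hr)
        omega
      · intro h
        exact (mem_sdiff.1 (hS r hr h)).2 hj
    · have hjY : j ∈ Y := by rw [hY, mem_sdiff]; exact ⟨mem_univ _, hj⟩
      rw [hf', stack_lt_pos (hon r hr) ((hon r hr).flip hj), hgadj]
      exact hg₀S r hr j hjY
  have hval : ∀ (t : ℕ) (ht : t < q.length),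
      f' (q[t]).w = c ((past A f x₀ τ).length + t) := by
    intro t ht
    rw [past_length, hf', stack_pos (hon _ (List.getElem_mem ht)), ← hut t ht, hgval t ht]
    simp only [hc, hB]
    rw [Nat.add_sub_cancel_left]
  -- the run up to time `τ` and after it
  have htr : traj A f' x₀ τ = traj A f x₀ τ := traj_stack hst.hyp hτoff
  have hpos : pos A f' x₀ τ = pos A f x₀ τ := by unfold pos; rw [htr]
  have hpast : past A f' x₀ τ = past A f x₀ τ := by unfold past; rw [htr]
  have hrun : ∀ (t : ℕ) (ht : t < q.length), (∀ s < t, (act A f' x₀ (τ + s)).isRight = false) →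
      pos A f' x₀ (τ + t) = (q[t]).w ∧ (q[t]).S.Nonempty := by
    intro t ht h
    have h1 := run_walk (f := f') hq himp hval t ht
    have h2 := traj_run (A := A) (x₀ := x₀) (f := f') d t h
    rw [hpos, hpast] at h2
    refine ⟨?_, h1.2⟩
    unfold pos
    rw [h2]
    exact h1.1
  have hjump : jumps A f' x₀ τ = jumps A f x₀ τ := jumps_stack hst.hyp hτoff
  have hposlt : ∀ s < τ, pos A f' x₀ s = pos A f x₀ s := by
    intro s hs
    unfold pos
    rw [hf', traj_stack hst.hyp fun r hr => hτoff r (by omega)]
  by_cases hnj : ∃ t, t < q.length ∧ (act A f' x₀ (τ + t)).isRight = true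
  swap
  · -- no jump during the long walk
    left
    push Not at hnj
    have hnj' : ∀ t < q.length, (act A f' x₀ (τ + t)).isRight = false := by
      intro t ht
      have := hnj t ht
      cases h : (act A f' x₀ (τ + t)).isRight
      · rfl
      · exact absurd h this
    refine ⟨f', hinj', hA', fun T hT _ => ?_⟩
    have hTτ : τ + q.length ≤ T := by
      by_contra hlt
      push Not at hlt
      rcases lt_or_ge T τ with h1 | h1
      · refine improving_ne hst.aof hst.hyp (hτoff T h1) ?_
        rw [hposlt T h1] at hT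
        have h2 : view f' (pos A f x₀ T) = view f (pos A f x₀ T) := view_stack hst.hyp (hτoff T h1)
        have h3 : improving f' (pos A f x₀ T) = improving f (pos A f x₀ T) :=
          (Prod.ext_iff.1 (Prod.ext_iff.1 h2).2).2
        rw [← h3]
        exact hT
      · obtain ⟨t, rfl⟩ := Nat.exists_eq_add_of_le h1
        obtain ⟨h2, h3⟩ := hrun t (by omega) fun s hs => hnj' s (by omega)
        rw [h2, himp _ (List.getElem_mem _)] at hT
        rw [hT] at h3
        simp at h3
    refine ⟨τ, by omega, fun t h1 h2 => ?_⟩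
    obtain ⟨s, rfl⟩ := Nat.exists_eq_add_of_le h1
    exact hnj' s (by omega)
  · -- a jump
    right
    set t₀ := Nat.find hnj with ht₀
    obtain ⟨h1, h2⟩ : t₀ < q.length ∧ (act A f' x₀ (τ + t₀)).isRight = true := Nat.find_spec hnj
    have h3 : ∀ s < t₀, (act A f' x₀ (τ + s)).isRight = false := by
      intro s hs
      have := Nat.find_min hnj hs
      push Not at this
      have h4 := this (by omega)
      cases h : (act A f' x₀ (τ + s)).isRight
      · rfl
      · exact absurd h h4
    set z' : Fin n → Bool := fun x => if x ∈ Z then z x else b' x with hz'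
    have hz'1 : ∀ u : Fin n → Bool, On (Z ∪ X') z' u → On Z z u := by
      intro u h x hx
      have := h x (mem_union_left _ hx)
      simpa [hz', hx] using this
    have hXZ : ∀ x ∈ X', x ∉ Z := fun x hx => (mem_sdiff.1 (hX' hx)).2
    have hz'2 : ∀ u : Fin n → Bool, On (Z ∪ X') z' u → On X' b' u := by
      intro u h x hx
      have := h x (mem_union_right _ hx)
      simpa [hz', hXZ x hx] using this
    refine ⟨f', Z ∪ X', z', hinj', hA', ?_, ?_, ?_⟩
    · intro u hu j hj
      have hu1 := hz'1 u hu
      by_cases hjZ : j ∈ Z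
      · apply stack_lt _ hu1
        intro h
        have h4 := h j hjZ
        rw [flip_self, hu1 j hjZ] at h4
        simp at h4
      · have hjX : j ∈ X' := by
          rcases mem_union.1 hj with h | h
          · exact absurd h hjZ
          · exact h
        rw [hf', stack_lt_pos (hu1.flip hjZ) hu1]
        exact hgX u (hz'2 u hu) j hjX
    · have h4 := card_union_le Z X'
      have h5 := hst.card
      have : m * (i + 1) = m * i + m := by ring
      omega
    · intro T hT1 hT2
      have hTt : τ + t₀ < T := by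
        by_contra hle
        push Not at hle
        rcases lt_or_ge T τ with h4 | h4
        · rw [hposlt T h4] at hT2
          exact hτoff T h4 (hz'1 _ hT2)
        · obtain ⟨t, rfl⟩ := Nat.exists_eq_add_of_le h4
          obtain ⟨h5, -⟩ := hrun t (by omega) fun s hs => h3 s (by omega)
          rw [h5] at hT2
          obtain ⟨x, hx, -, hx3⟩ := hX'w _ (List.getElem_mem (h := by omega) : q[t]'(by omega) ∈ q)
          exact hx3 (hz'2 _ hT2 x hx).symm
      have h4 := jumps_lt (A := A) (f := f') (x₀ := x₀) (s := τ) (t := τ + t₀) (u := T)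
        (by omega) hTt h2
      have h5 := hst.enter τ hτoff hτon
      omega

/-- **The adversary.** -/
theorem adversary {k J : ℕ}
    (hn : 2 * (k * (k + 1) * (3 * k + 28)) + 3 * (k + 6) * (J + 1) ≤ n) (hA : Ok A)
    (x₀ : Fin n → Bool) :
    ∃ f : (Fin n → Bool) → ℕ, Function.Injective f ∧ AOF f ∧ Goal A x₀ J (2 ^ k) f := by
  have key : ∀ (m i : ℕ) (f : (Fin n → Bool) → ℕ) (Z : Finset (Fin n)) (z : Fin n → Bool),
      i + m = J + 1 → St A x₀ (3 * (k + 6)) i f Z z →
      ∃ f : (Fin n → Bool) → ℕ, Function.Injective f ∧ AOF f ∧ Goal A x₀ J (2 ^ k) f := by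
    intro m
    induction m with
    | zero =>
      intro i f Z z hi hst
      refine ⟨f, hst.inj, hst.aof, fun T hT hJ => ?_⟩
      exfalso
      have h1 : On Z z (pos A f x₀ T) := by
        by_contra h
        exact improving_ne hst.aof hst.hyp h hT
      have hent : ∃ T, On Z z (pos A f x₀ T) := ⟨T, h1⟩
      classical
      have h2 := hst.enter (Nat.find hent) (fun s hs => Nat.find_min hent hs) (Nat.find_spec hent)
      have h3 := jumps_mono (A := A) (f := f) (x₀ := x₀) (Nat.find_min' hent h1)
      omega
    | succ m ih =>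
      intro i f Z z hi hst
      rcases phase (k := k) (J := J) rfl hn (by omega) hA hst with h | ⟨f', Z', z', h⟩
      · exact h
      · exact ih (i + 1) f' Z' z' (by omega) h
  obtain ⟨g, hg1, hg2, -⟩ := relabel (AOF.uniform (n := n) fun _ => false) (T := 0)
    (fun _ => fun _ => false) (by intro t ht; omega)
  refine key (J + 1) 0 g ∅ (fun _ => false) (by omega) ⟨hg1, aof_congr (AOF.uniform _) hg2, ?_, ?_, ?_⟩
  · intro u _ i hi
    simp at hi
  · simp
  · intro T _ _
    omega

end Pool.Agent.TH70.AR.JP
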